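import Mathlib

/-!
# Minimum-eigenvalue hyperplane sections of Gilbert graphs (MP_be01c1_co, Q1)
-/

set_option autoImplicit false

open Finset

namespace Pool.Agent.Results.MP_be01c1_co.TiesDiffer

section

variable (q n d : ℕ)

/-- Hamming weight -/
def wt {q n : ℕ} (u : Fin n → ZMod q) : ℕ := (univ.filter fun i => u i ≠ 0).card

/-- the standard inner product -/
def ip {q n : ℕ} (u v : Fin n → ZMod q) : ZMod q := ∑ i, u i * v i

/-- the Gilbert graph on `F_q^n` -/
def gilbert : SimpleGraph (Fin n → ZMod q) where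
  Adj u v := 1 ≤ wt (u - v) ∧ wt (u - v) ≤ d - 1
  symm := ⟨fun u v h => by
    have e : wt (v - u) = wt (u - v) := by
      unfold wt
      congr 1
      apply Finset.filter_congr
      intro i _
      simp only [Pi.sub_apply, ne_eq, sub_eq_zero]
      exact ⟨fun h h' => h h'.symm, fun h h' => h h'.symm⟩
    rw [e]; exact h⟩
  loopless := ⟨fun u h => by
    rw [sub_self] at h
    simp [wt] at h⟩

/-- the induced subgraph on a set of vectors -/
def G (K : Set (Fin n → ZMod q)) : SimpleGraph K := (gilbert q n d).induce K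

/-- the eigenvalue of `G[K]` belonging to `v` -/
noncomputable def lam [NeZero q] (K : Set (Fin n → ZMod q)) (v : Fin n → ZMod q) : ℂ :=
  ∑ u : Fin n → ZMod q, open Classical in
    if u ∈ K ∧ 1 ≤ wt u ∧ wt u ≤ d - 1 then
      Complex.exp (2 * Real.pi * Complex.I / q) ^ (ip u v).val else 0

/-- `v` gives the least eigenvalue of `G[K]` -/
def IsMin [NeZero q] (K : Set (Fin n → ZMod q)) (v : Fin n → ZMod q) : Prop :=
  ∀ w, (lam q n d K v).re ≤ (lam q n d K w).re

/-- the integer `∑ v_i q ^ (n - i)` (with `i = 1, …, n`) by which vectors are ordered -/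
def code {q n : ℕ} (v : Fin n → ZMod q) : ℕ := ∑ i : Fin n, (v i).val * q ^ (n - 1 - i.val)

/-- the section of `K` orthogonal to `v` -/
def sec {q n : ℕ} (K : Set (Fin n → ZMod q)) (v : Fin n → ZMod q) : Set (Fin n → ZMod q) :=
  {u | u ∈ K ∧ ip u v = 0}

open Classical in
/-- the first vector giving the least eigenvalue of `G[K]` -/
noncomputable def first [NeZero q] (K : Set (Fin n → ZMod q)) : Fin n → ZMod q :=
  if h : ∃ v, IsMin q n d K v ∧ ∀ w, IsMin q n d K w → code v ≤ code w then h.choose else 0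

/-- the subspaces `V_t` -/
noncomputable def V [NeZero q] : ℕ → Set (Fin n → ZMod q)
  | 0 => Set.univ
  | t + 1 => sec (V t) (first q n d (V t))

end

/-! ### Bit masks -/

abbrev W : Type := Fin 8 → ZMod 2

/-- the vector with bit mask `m` -/
def vec (m : ℕ) : W := fun i => if m.testBit i.val then 1 else 0

/-- number of bits of a number below 256 -/
def pc (m : ℕ) : ℕ :=
  let a := m - ((m >>> 1) &&& 85)
  let b := (a &&& 51) + ((a >>> 2) &&& 51)
  (b + (b >>> 4)) &&& 15

/-- parity of the number of bits of a number below 256 -/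
def par (m : ℕ) : Bool :=
  let a := m ^^^ (m >>> 4)
  let b := a ^^^ (a >>> 2)
  let c := b ^^^ (b >>> 1)
  c % 2 == 1

theorem vec_xor (a b : ℕ) : vec (a ^^^ b) = vec a + vec b := by
  funext i
  simp only [vec, Nat.testBit_xor, Pi.add_apply]
  cases a.testBit i.val <;> cases b.testBit i.val <;> decide

theorem vec_inj : ∀ a b : Fin 256, vec a.val = vec b.val → a = b := by
  intro a b h
  apply Fin.ext
  apply Nat.eq_of_testBit_eq
  intro i
  by_cases hi : i < 8
  · have := congrFun h ⟨i, hi⟩
    simp only [vec] at this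
    cases ha : a.val.testBit i <;> cases hb : b.val.testBit i <;> rw [ha, hb] at this <;>
      first | rfl | (exact absurd this (by decide))
  · have h8 : 256 ≤ 2 ^ i := by
      calc 256 = 2 ^ 8 := by norm_num
        _ ≤ 2 ^ i := Nat.pow_le_pow_right (by norm_num) (by omega)
    rw [Nat.testBit_lt_two_pow (lt_of_lt_of_le a.isLt h8),
      Nat.testBit_lt_two_pow (lt_of_lt_of_le b.isLt h8)]

/-- the bijection between numbers below 256 and vectors -/
noncomputable def ev : Fin 256 ≃ W :=
  Equiv.ofBijective (fun m : Fin 256 => vec m.val) (by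
    rw [Fintype.bijective_iff_injective_and_card]
    refine ⟨fun a b h => vec_inj a b h, ?_⟩
    simp [Fintype.card_pi])

theorem ev_apply (m : Fin 256) : ev m = vec m.val := rfl

theorem wt_vec : ∀ m : Fin 256, wt (vec m.val) = pc m.val := by
  decide +kernel

theorem ip_vec' : ∀ m : Fin 256, (∑ i : Fin 8, vec m.val i) = if par m.val then 1 else 0 := by
  decide +kernel

theorem ip_vec (a b : Fin 256) : ip (vec a.val) (vec b.val)
    = if par (a.val &&& b.val) then 1 else 0 := by
  have h : a.val &&& b.val < 256 := lt_of_le_of_lt Nat.and_le_left a.isLt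
  have h1 := ip_vec' ⟨a.val &&& b.val, h⟩
  rw [← h1]
  unfold ip
  refine Finset.sum_congr rfl fun i _ => ?_
  simp only [vec, Nat.testBit_land]
  cases a.val.testBit i.val <;> cases b.val.testBit i.val <;> decide

/-- membership in the connection set -/
def inS (m : ℕ) : Bool := 1 ≤ pc m && pc m ≤ 4

/-! ### Eigenvalues -/

theorem exp_pi : Complex.exp (2 * Real.pi * Complex.I / 2) = -1 := by
  rw [← Complex.exp_pi_mul_I]
  congr 1
  ring

/-- the number of elements of the connection set with odd inner product with `v` -/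
def oddN (v : ℕ) : ℕ := ((List.range 256).filter fun u => inS u && par (u &&& v)).length

theorem lam_vec (v : Fin 256) : lam 2 8 5 Set.univ (vec v.val)
    = ((∑ u : Fin 256, (if inS u.val then (if par (u.val &&& v.val) then (-1 : ℤ) else 1) else 0) : ℤ) : ℂ) := by
  unfold lam
  rw [← Equiv.sum_comp ev]
  push_cast
  refine Finset.sum_congr rfl fun u _ => ?_
  rw [ev_apply, wt_vec, ip_vec, exp_pi]
  by_cases h : inS u.val = true
  · have h2 : vec u.val ∈ (Set.univ : Set W) ∧ 1 ≤ pc u.val ∧ pc u.val ≤ 5 - 1 := by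
      simpa [inS] using h
    rw [if_pos h2, if_pos h]
    by_cases h3 : par (u.val &&& v.val) = true
    · rw [if_pos h3, if_pos h3]
      have : (1 : ZMod 2).val = 1 := rfl
      rw [this]; simp
    · rw [if_neg h3, if_neg h3]
      simp
  · have h2 : ¬ (vec u.val ∈ (Set.univ : Set W) ∧ 1 ≤ pc u.val ∧ pc u.val ≤ 5 - 1) := by
      intro h'
      apply h
      simpa [inS] using h'
    rw [if_neg h2, if_neg h]

/-- the integer eigenvalue, computed with lists -/
def lamZ (v : ℕ) : ℤ :=
  (List.range 256).foldl (fun s u => if inS u then (if par (u &&& v) then s - 1 else s + 1) else s) 0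

theorem foldl_eq (v : ℕ) (l : List ℕ) (s : ℤ) :
    l.foldl (fun s u => if inS u then (if par (u &&& v) then s - 1 else s + 1) else s) s
      = s + (l.map fun u => (if inS u then (if par (u &&& v) then (-1 : ℤ) else 1) else 0)).sum := by
  induction l generalizing s with
  | nil => simp
  | cons a l ih =>
    rw [List.foldl_cons, ih, List.map_cons, List.sum_cons]
    by_cases h1 : inS a = true <;> by_cases h2 : par (a &&& v) = true <;> simp [h1, h2] <;> ring

theorem lamZ_eq (v : ℕ) : (∑ u : Fin 256,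
    (if inS u.val then (if par (u.val &&& v) then (-1 : ℤ) else 1) else 0)) = lamZ v := by
  rw [lamZ, foldl_eq, zero_add, Fin.sum_univ_eq_sum_range
    (fun u => (if inS u then (if par (u &&& v) then (-1 : ℤ) else 1) else 0)) 256]
  rfl

theorem lamZ_min : ∀ v : Fin 256, -6 ≤ lamZ v.val := by
  decide +kernel

theorem lamZ_three : lamZ 3 = -6 := by decide +kernel

theorem lamZ_seven : lamZ 7 = -6 := by decide +kernel

theorem isMin_of (v : Fin 256) (hv : lamZ v.val = -6) : IsMin 2 8 5 Set.univ (vec v.val) := by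
  intro w
  obtain ⟨m, rfl⟩ := ev.surjective w
  rw [ev_apply, lam_vec, lam_vec, lamZ_eq, lamZ_eq, hv, Complex.intCast_re, Complex.intCast_re]
  exact_mod_cast lamZ_min m

/-! ### Common neighbours -/

/-- number of common neighbours -/
noncomputable def cn {X : Type} (H : SimpleGraph X) (x y : X) : ℕ :=
  Nat.card {z : X // H.Adj x z ∧ H.Adj z y}

theorem cn_iso {X Y : Type} {H : SimpleGraph X} {H' : SimpleGraph Y} (f : H ≃g H') (x y : X) :
    cn H x y = cn H' (f x) (f y) := by
  apply Nat.card_congr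
  refine Equiv.subtypeEquiv f.toEquiv ?_
  intro z
  constructor
  · rintro ⟨h1, h2⟩
    exact ⟨f.map_rel_iff.2 h1, f.map_rel_iff.2 h2⟩
  · rintro ⟨h1, h2⟩
    exact ⟨f.map_rel_iff.1 h1, f.map_rel_iff.1 h2⟩

/-- common neighbours of `0` and `t` in the section orthogonal to `v`, computed with bit masks -/
def cnZ (v t : ℕ) : ℕ :=
  ((List.range 256).filter fun s => inS s && !par (s &&& v) && inS (s ^^^ t)).length

theorem xor_lt (a b : Fin 256) : a.val ^^^ b.val < 256 :=
  Nat.xor_lt_two_pow (n := 8) a.isLt b.isLt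

theorem two_vec (x : W) : x + x = 0 := by
  funext i
  have : ∀ a : ZMod 2, a + a = 0 := by decide
  exact this (x i)

theorem sub_eq_add' (x y : W) : x - y = x + y := by
  rw [sub_eq_iff_eq_add, add_assoc, two_vec, add_zero]

theorem adj_vec (a b : Fin 256) : (gilbert 2 8 5).Adj (vec a.val) (vec b.val)
    ↔ inS (a.val ^^^ b.val) = true := by
  have h1 : vec a.val - vec b.val = vec (a.val ^^^ b.val) := by
    rw [vec_xor, sub_eq_add']
  show 1 ≤ wt (vec a.val - vec b.val) ∧ wt (vec a.val - vec b.val) ≤ 5 - 1 ↔ _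
  rw [h1, wt_vec ⟨a.val ^^^ b.val, xor_lt a b⟩]
  simp [inS]

theorem mem_sec (v a : Fin 256) : vec a.val ∈ sec (Set.univ : Set W) (vec v.val)
    ↔ par (a.val &&& v.val) = false := by
  show vec a.val ∈ (Set.univ : Set W) ∧ ip (vec a.val) (vec v.val) = 0 ↔ _
  rw [ip_vec]
  cases par (a.val &&& v.val)
  · simp
  · simp

theorem ip_add (x y v : W) : ip (x + y) v = ip x v + ip y v := by
  unfold ip
  rw [← Finset.sum_add_distrib]
  refine Finset.sum_congr rfl fun i _ => ?_
  rw [Pi.add_apply, add_mul]

theorem card_filter_range (p : ℕ → Bool) :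
    Fintype.card {s : Fin 256 // p s.val = true} = ((List.range 256).filter p).length := by
  rw [Fintype.card_subtype, Finset.card_filter, Fin.sum_univ_eq_sum_range
    (fun i => if p i = true then 1 else 0) 256, ← Finset.card_filter]
  rw [Finset.card_def, Finset.filter_val]
  simp [Finset.range, Multiset.range]

theorem cn_eq (v t : Fin 256) (x y : sec (Set.univ : Set W) (vec v.val))
    (h : y.val = x.val + vec t.val) : cn (G 2 8 5 (sec Set.univ (vec v.val))) x y = cnZ v.val t.val := by
  rw [cnZ, ← card_filter_range, ← Nat.card_eq_fintype_card]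
  symm
  have hmem : ∀ s : Fin 256, par (s.val &&& v.val) = false →
      x.val + vec s.val ∈ sec (Set.univ : Set W) (vec v.val) := by
    intro s hs
    refine ⟨trivial, ?_⟩
    rw [ip_add, x.prop.2, ((mem_sec v s).2 hs).2, add_zero]
  refine Nat.card_congr (Equiv.ofBijective
    (fun s => ⟨⟨x.val + vec s.val.val, hmem s.val ?_⟩, ?_, ?_⟩) ⟨?_, ?_⟩)
  · have := s.prop
    simp only [Bool.and_eq_true, Bool.not_eq_true'] at this
    exact this.1.2
  · have h3 := s.prop
    simp only [Bool.and_eq_true, Bool.not_eq_true'] at h3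
    show 1 ≤ wt (x.val - (x.val + vec s.val.val)) ∧ wt (x.val - (x.val + vec s.val.val)) ≤ 5 - 1
    have e : x.val - (x.val + vec s.val.val) = vec s.val.val := by
      rw [sub_eq_add', ← add_assoc, two_vec, zero_add]
    rw [e, wt_vec s.val]
    simpa [inS] using h3.1.1
  · have h3 := s.prop
    simp only [Bool.and_eq_true, Bool.not_eq_true'] at h3
    show 1 ≤ wt ((x.val + vec s.val.val) - y.val) ∧ wt ((x.val + vec s.val.val) - y.val) ≤ 5 - 1
    have e : (x.val + vec s.val.val) - y.val = vec (s.val.val ^^^ t.val) := by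
      rw [sub_eq_add', h, vec_xor]
      have : x.val + vec s.val.val + (x.val + vec t.val)
          = (x.val + x.val) + (vec s.val.val + vec t.val) := by abel
      rw [this, two_vec, zero_add]
    rw [e, wt_vec ⟨s.val.val ^^^ t.val, xor_lt s.val t⟩]
    simpa [inS] using h3.2
  · intro s s' hss
    have h4 := congrArg (fun z => z.val.val) hss
    simp only [add_right_inj] at h4
    exact Subtype.ext (vec_inj _ _ h4)
  · rintro ⟨⟨z, hz⟩, hz1, hz2⟩
    obtain ⟨m, hm⟩ := ev.surjective (x.val + z)
    rw [ev_apply] at hm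
    have hz' : z = x.val + vec m.val := by
      rw [hm, ← add_assoc, two_vec, zero_add]
    have hpar : par (m.val &&& v.val) = false := by
      rw [← mem_sec, hm]
      refine ⟨trivial, ?_⟩
      rw [ip_add, x.prop.2, hz.2, add_zero]
    have hS1 : inS m.val = true := by
      have h5 : 1 ≤ wt (x.val - z) ∧ wt (x.val - z) ≤ 5 - 1 := hz1
      rw [sub_eq_add', ← hm, wt_vec] at h5
      simpa [inS] using h5
    have hS2 : inS (m.val ^^^ t.val) = true := by
      have h5 : 1 ≤ wt (z - y.val) ∧ wt (z - y.val) ≤ 5 - 1 := hz2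
      have e : z - y.val = vec (m.val ^^^ t.val) := by
        rw [sub_eq_add', h, vec_xor, hz']
        have : x.val + vec m.val + (x.val + vec t.val)
            = (x.val + x.val) + (vec m.val + vec t.val) := by abel
        rw [this, two_vec, zero_add]
      rw [e, wt_vec ⟨m.val ^^^ t.val, xor_lt m t⟩] at h5
      simpa [inS] using h5
    refine ⟨⟨m, by simp [hS1, hS2, hpar]⟩, ?_⟩
    apply Subtype.ext
    apply Subtype.ext
    exact hz'.symm

theorem cnZ_three : cnZ 3 63 = 38 := by decide +kernel

theorem cnZ_seven : ∀ t : Fin 256, cnZ 7 t.val ≠ 38 := by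
  decide +kernel

theorem par_63 : par (63 &&& 3) = false := by decide

theorem not_iso : ¬ Nonempty (G 2 8 5 (sec (Set.univ : Set W) (vec 3)) ≃g
    G 2 8 5 (sec (Set.univ : Set W) (vec 7))) := by
  rintro ⟨f⟩
  set x : sec (Set.univ : Set W) (vec 3) := ⟨0, trivial, by simp [ip]⟩ with hx
  set y : sec (Set.univ : Set W) (vec 3) := ⟨vec 63, (mem_sec 3 63).2 par_63⟩ with hy
  have h1 : cn (G 2 8 5 (sec Set.univ (vec 3))) x y = 38 := by
    rw [← cnZ_three]
    exact cn_eq 3 63 x y (by rw [hx, hy, zero_add]; rfl)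
  rw [cn_iso f x y] at h1
  obtain ⟨m, hm⟩ := ev.surjective ((f x).val + (f y).val)
  rw [ev_apply] at hm
  have h2 := cn_eq 7 m (f x) (f y) (by rw [hm, ← add_assoc, two_vec, zero_add])
  exact cnZ_seven m (h2.symm.trans h1)

/-- **Q1 of MP_be01c1_co: no.** For `q = 2`, `n = 8`, `d = 5` and `t = 0` the vectors
`v = (1,1,0,0,0,0,0,0)` and `v' = (1,1,1,0,0,0,0,0)` both give the least eigenvalue of `G_0`, but
the subgraphs induced on the sections orthogonal to `v` and `v'` are not isomorphic. -/
theorem result : ∃ (q n d : ℕ) (_ : Fact q.Prime) (t : ℕ), 1 ≤ n ∧ 2 ≤ d ∧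
    (∃ x y, (G q n d (V q n d t)).Adj x y) ∧
    ∃ v v' : Fin n → ZMod q, IsMin q n d (V q n d t) v ∧ IsMin q n d (V q n d t) v' ∧
      ¬ Nonempty (G q n d (sec (V q n d t) v) ≃g G q n d (sec (V q n d t) v')) := by
  refine ⟨2, 8, 5, ⟨Nat.prime_two⟩, 0, by norm_num, by norm_num, ?_, vec 3, vec 7, ?_, ?_, ?_⟩
  · refine ⟨⟨vec 0, trivial⟩, ⟨vec 1, trivial⟩, ?_⟩
    exact (adj_vec 0 1).2 (by decide)
  · exact isMin_of 3 lamZ_three
  · exact isMin_of 7 lamZ_seven
  · exact not_iso

end Pool.Agent.Results.MP_be01c1_co.TiesDiffer
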